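import Mathlib

/-!
# Maximal chains in infinite partition lattices: from nested separating families to chains
-/

namespace Pool.Agent.Q306.PL

open Cardinal Set

universe u v

section Fam

variable {α : Type u} {I : Type v} [LinearOrder I]

/-- `x` and `y` are equivalent when no `A i` with `i ∈ J` separates them. -/
def rel (A : I → Set α) (J : Set I) : Setoid α where
  r x y := ∀ i ∈ J, (x ∈ A i ↔ y ∈ A i)
  iseqv := ⟨fun _ _ _ => Iff.rfl, fun h i hi => (h i hi).symm,
    fun h h' i hi => (h i hi).trans (h' i hi)⟩

theorem rel_anti (A : I → Set α) {J J' : Set I} (h : J ⊆ J') : rel A J' ≤ rel A J := by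
  intro x y hxy i hi
  exact hxy i (h hi)

/-- The chain attached to a family: all relations `rel A J`, `J` a lower set. -/
def famChain (A : I → Set α) : Set (Setoid α) := {R | ∃ J : Set I, IsLowerSet J ∧ R = rel A J}

theorem lower_total {J J' : Set I} (h : IsLowerSet J) (h' : IsLowerSet J') :
    J ⊆ J' ∨ J' ⊆ J := IsLowerSet.total h h'

theorem famChain_isChain (A : I → Set α) : IsChain (· ≤ ·) (famChain A) := by
  rintro R ⟨J, hJ, rfl⟩ R' ⟨J', hJ', rfl⟩ _
  rcases lower_total hJ hJ' with h | h
  · exact Or.inr (rel_anti A h)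
  · exact Or.inl (rel_anti A h)

theorem famChain_max [WellFoundedLT I] (A : I → Set α)
    (hA : ∀ i j, A i ⊆ A j ∨ A j ⊆ A i)
    (hs : ∀ x y, (∀ i, x ∈ A i ↔ y ∈ A i) → x = y) :
    IsMaxChain (· ≤ ·) (famChain A) := by
  refine ⟨famChain_isChain A, ?_⟩
  intro t ht hCt
  refine subset_antisymm hCt ?_
  intro R hR
  by_cases hex : ∃ a, ∃ x y, R x y ∧ ¬ (x ∈ A a ↔ y ∈ A a)
  · -- take the least such `a`
    obtain ⟨a, ⟨x, y, hxy, hsep⟩, hmin⟩ :=
      WellFounded.has_min (wellFounded_lt (α := I))
        {a | ∃ x y, R x y ∧ ¬ (x ∈ A a ↔ y ∈ A a)} hex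
    have hle : R ≤ rel A (Iio a) := by
      intro u w huw i hi
      by_contra hcon
      exact hmin i ⟨u, w, huw, hcon⟩ hi
    -- normalise `x ∈ A a`, `y ∉ A a`
    obtain ⟨x, y, hxy, hx, hy⟩ : ∃ x y, R x y ∧ x ∈ A a ∧ y ∉ A a := by
      by_cases hx : x ∈ A a
      · exact ⟨x, y, hxy, hx, fun hy => hsep ⟨fun _ => hy, fun _ => hx⟩⟩
      · refine ⟨y, x, R.symm' hxy, ?_, hx⟩
        by_contra hy
        exact hsep ⟨fun h => absurd h hx, fun h => absurd h hy⟩
    have hIic : rel A (Iic a) ∈ t := hCt ⟨Iic a, isLowerSet_Iic a, rfl⟩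
    have hge : rel A (Iic a) ≤ R := by
      have hne : R ≠ rel A (Iic a) := by
        intro h
        rw [h] at hxy
        exact hy ((hxy a le_rfl).1 hx)
      rcases ht hR hIic hne with h | h
      · exact absurd ((h hxy a le_rfl).1 hx) hy
      · exact h
    have hxyI : ∀ i < a, (x ∈ A i ↔ y ∈ A i) := fun i hi => hle hxy i hi
    -- key claim
    have key : ∀ u w, rel A (Iio a) u w → u ∈ A a → w ∉ A a → R u w := by
      intro u w huw hu hw
      have hux : ∀ i < a, (u ∈ A i ↔ x ∈ A i) := by
        intro i hi
        constructor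
        · intro hui
          by_contra hxi
          have hwi : w ∈ A i := (huw i hi).1 hui
          rcases hA i a with h | h
          · exact hw (h hwi)
          · exact hxi (h hx)
        · intro hxi
          by_contra hui
          have hyi : y ∈ A i := (hxyI i hi).1 hxi
          rcases hA i a with h | h
          · exact hy (h hyi)
          · exact hui (h hu)
      have h1 : R u x := by
        apply hge
        intro i hi
        rcases lt_or_eq_of_le (show i ≤ a from hi) with h | h
        · exact hux i h
        · subst h; exact ⟨fun _ => hx, fun _ => hu⟩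
      have h2 : R w y := by
        apply hge
        intro i hi
        rcases lt_or_eq_of_le (show i ≤ a from hi) with h | h
        · exact ((huw i h).symm.trans (hux i h)).trans (hxyI i h)
        · subst h; exact ⟨fun h => absurd h hw, fun h => absurd h hy⟩
      exact R.trans' h1 (R.trans' hxy (R.symm' h2))
    refine ⟨Iio a, isLowerSet_Iio a, le_antisymm hle ?_⟩
    intro u w huw
    by_cases hu : u ∈ A a
    · by_cases hw : w ∈ A a
      · apply hge
        intro i hi
        rcases lt_or_eq_of_le (show i ≤ a from hi) with h | h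
        · exact huw i h
        · subst h; exact ⟨fun _ => hw, fun _ => hu⟩
      · exact key u w huw hu hw
    · by_cases hw : w ∈ A a
      · exact R.symm' (key w u ((rel A (Iio a)).symm' huw) hw hu)
      · apply hge
        intro i hi
        rcases lt_or_eq_of_le (show i ≤ a from hi) with h | h
        · exact huw i h
        · subst h; exact ⟨fun h => absurd h hu, fun h => absurd h hw⟩
  · push Not at hex
    refine ⟨Set.univ, isLowerSet_univ, ?_⟩
    apply le_antisymm
    · intro x y hxy i _
      have := hex i x y hxy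
      tauto
    · intro x y hxy
      have : x = y := hs x y (fun i => hxy i trivial)
      subst this
      exact R.refl' x

/-- In a well-order, a lower set is an initial segment or everything. -/
theorem lower_eq [WellFoundedLT I] {J : Set I} (hJ : IsLowerSet J) :
    J = Set.univ ∨ ∃ a, J = Iio a := by
  by_cases h : J = Set.univ
  · exact Or.inl h
  · right
    have hne : (Jᶜ).Nonempty := Set.nonempty_compl.2 h
    obtain ⟨a, ha, hmin⟩ := WellFounded.has_min (wellFounded_lt (α := I)) Jᶜ hne
    refine ⟨a, ?_⟩
    ext i
    constructor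
    · intro hi
      by_contra hcon
      exact ha (hJ (not_lt.1 hcon) hi)
    · intro hi
      by_contra hcon
      exact hmin i hcon hi

/-- index of a lower set in `WithTop I` -/
theorem famChain_subset_range [WellFoundedLT I] (A : I → Set α) :
    famChain A ⊆ Set.range (fun o : Option I => match o with
      | none => rel A Set.univ
      | some a => rel A (Iio a)) := by
  rintro R ⟨J, hJ, rfl⟩
  rcases lower_eq hJ with h | ⟨a, h⟩
  · exact ⟨none, by rw [h]⟩
  · exact ⟨some a, by rw [h]⟩

end Fam

theorem famChain_card {α : Type u} {I : Type u} [LinearOrder I] [WellFoundedLT I]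
    (A : I → Set α) : #(famChain A) ≤ #I + 1 := by
  refine (Cardinal.mk_le_mk_of_subset (famChain_subset_range A)).trans ?_
  refine Cardinal.mk_range_le.trans ?_
  rw [Cardinal.mk_option]

/-- Main construction. -/
theorem exists_chain_of_fam {α : Type u} {I : Type u} (A : I → Set α)
    (hA : ∀ i j, A i ⊆ A j ∨ A j ⊆ A i)
    (hs : ∀ x y, (∀ i, x ∈ A i ↔ y ∈ A i) → x = y) :
    ∃ C : Set (Setoid α), IsMaxChain (· ≤ ·) C ∧ #C ≤ #I + 1 := by
  classical
  letI : LinearOrder I := IsWellOrder.linearOrder (WellOrderingRel (α := I))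
  haveI : WellFoundedLT I := ⟨(WellOrderingRel.isWellOrder (α := I)).wf⟩
  exact ⟨famChain A, famChain_max A hA hs, famChain_card A⟩

end Pool.Agent.Q306.PL
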