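import Pool.Agent.Q306.PL.Basic

/-!
# From a maximal chain to a nested separating family
-/

namespace Pool.Agent.Q306.PL

open Cardinal Set

universe u

section Conv

variable {α : Type u} (C : Set (Setoid α))

/-- The least member of `C` relating `x` and `y`. -/
def Up (x y : α) : Setoid α := sInf {E | E ∈ C ∧ E x y}

theorem Up_rel (x y : α) : (Up C x y) x y := by
  intro E hE
  exact hE.2

theorem Up_le {x y : α} {E : Setoid α} (hE : E ∈ C) (h : E x y) : Up C x y ≤ E :=
  sInf_le ⟨hE, h⟩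

variable {C}

theorem cmp (hC : IsMaxChain (· ≤ ·) C) {E F : Setoid α} (hE : E ∈ C) (hF : F ∈ C) :
    E ≤ F ∨ F ≤ E := by
  by_cases h : E = F
  · exact Or.inl h.le
  · exact hC.1 hE hF h

theorem mem_of_cmp (hC : IsMaxChain (· ≤ ·) C) {R : Setoid α}
    (h : ∀ E ∈ C, E ≤ R ∨ R ≤ E) : R ∈ C := by
  have h2 : IsChain (· ≤ ·) (insert R C) := by
    apply hC.1.insert
    intro E hE _
    exact (h E hE).symm
  have h3 := hC.2 h2 (Set.subset_insert R C)
  rw [h3]
  exact Set.mem_insert R C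

theorem Up_mem (hC : IsMaxChain (· ≤ ·) C) (x y : α) : Up C x y ∈ C := by
  apply mem_of_cmp hC
  intro E hE
  by_cases hxy : E x y
  · exact Or.inr (Up_le C hE hxy)
  · left
    apply le_sInf
    rintro F ⟨hF, hFxy⟩
    rcases cmp hC hE hF with h | h
    · exact h
    · exact absurd (h hFxy) hxy

/-- The greatest member of `C` not relating `x` and `y`. -/
def Lo (hC : IsMaxChain (· ≤ ·) C) (x y : α) : Setoid α where
  r u v := u = v ∨ ∃ E ∈ C, ¬ E x y ∧ E u v
  iseqv := by
    refine ⟨fun _ => Or.inl rfl, ?_, ?_⟩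
    · rintro u v (h | ⟨E, hE, h, h'⟩)
      · exact Or.inl h.symm
      · exact Or.inr ⟨E, hE, h, E.symm' h'⟩
    · rintro u v w (h | ⟨E, hE, h, h'⟩) (h1 | ⟨F, hF, h1, h1'⟩)
      · exact Or.inl (h.trans h1)
      · subst h; exact Or.inr ⟨F, hF, h1, h1'⟩
      · subst h1; exact Or.inr ⟨E, hE, h, h'⟩
      · right
        rcases cmp hC hE hF with hh | hh
        · exact ⟨F, hF, h1, F.trans' (hh h') h1'⟩
        · exact ⟨E, hE, h, E.trans' h' (hh h1')⟩

theorem Lo_not (hC : IsMaxChain (· ≤ ·) C) {x y : α} (hne : x ≠ y) : ¬ (Lo hC x y) x y := by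
  rintro (h | ⟨E, _, h, h'⟩)
  · exact hne h
  · exact h h'

theorem le_Lo (hC : IsMaxChain (· ≤ ·) C) {x y : α} {E : Setoid α} (hE : E ∈ C) (h : ¬ E x y) :
    E ≤ Lo hC x y := fun _ _ huv => Or.inr ⟨E, hE, h, huv⟩

theorem Lo_le_of (hC : IsMaxChain (· ≤ ·) C) {x y : α} {E : Setoid α} (hE : E ∈ C) (h : E x y) :
    Lo hC x y ≤ E := by
  rintro u v (huv | ⟨F, hF, h1, h2⟩)
  · subst huv; exact E.refl' u
  · rcases cmp hC hE hF with hh | hh
    · exact absurd (hh h) h1
    · exact hh h2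

theorem Lo_mem (hC : IsMaxChain (· ≤ ·) C) (x y : α) : Lo hC x y ∈ C := by
  apply mem_of_cmp hC
  intro E hE
  by_cases h : E x y
  · exact Or.inr (Lo_le_of hC hE h)
  · exact Or.inl (le_Lo hC hE h)

theorem Lo_le_Up (hC : IsMaxChain (· ≤ ·) C) (x y : α) : Lo hC x y ≤ Up C x y :=
  Lo_le_of hC (Up_mem hC x y) (Up_rel C x y)

/-- the jump is determined by its top -/
theorem Lo_eq_of_Up_eq (hC : IsMaxChain (· ≤ ·) C) {x y a b : α} (h : Up C x y = Up C a b) :
    Lo hC x y = Lo hC a b := by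
  have key : ∀ E ∈ C, (E x y ↔ E a b) := by
    intro E hE
    constructor
    · intro hh
      have h1 := Up_le C hE hh
      rw [h] at h1
      exact h1 (Up_rel C a b)
    · intro hh
      have h1 := Up_le C hE hh
      rw [← h] at h1
      exact h1 (Up_rel C x y)
  ext u v
  constructor
  · rintro (h | ⟨E, hE, h1, h2⟩)
    · exact Or.inl h
    · exact Or.inr ⟨E, hE, fun h3 => h1 ((key E hE).2 h3), h2⟩
  · rintro (h | ⟨E, hE, h1, h2⟩)
    · exact Or.inl h
    · exact Or.inr ⟨E, hE, fun h3 => h1 ((key E hE).1 h3), h2⟩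

/-- A jump merges exactly two blocks. -/
theorem two_block (hC : IsMaxChain (· ≤ ·) C) {x y a b : α} (hne : a ≠ b)
    (h : (Up C a b) x y) (hn : ¬ (Lo hC a b) x y) :
    ((Lo hC a b) x a ∧ (Lo hC a b) y b) ∨ ((Lo hC a b) x b ∧ (Lo hC a b) y a) := by
  set L := Lo hC a b with hL
  have hLn : ¬ L a b := Lo_not hC hne
  let M : Setoid α :=
    { r := fun u v => L u v ∨ (L u a ∧ L v b) ∨ (L u b ∧ L v a)
      iseqv := by
        refine ⟨fun u => Or.inl (L.refl' u), ?_, ?_⟩
        · rintro u v (h | ⟨h, h'⟩ | ⟨h, h'⟩)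
          · exact Or.inl (L.symm' h)
          · exact Or.inr (Or.inr ⟨h', h⟩)
          · exact Or.inr (Or.inl ⟨h', h⟩)
        · rintro u v w (h | ⟨h, h'⟩ | ⟨h, h'⟩) (k | ⟨k, k'⟩ | ⟨k, k'⟩)
          · exact Or.inl (L.trans' h k)
          · exact Or.inr (Or.inl ⟨L.trans' h k, k'⟩)
          · exact Or.inr (Or.inr ⟨L.trans' h k, k'⟩)
          · exact Or.inr (Or.inl ⟨h, L.trans' (L.symm' k) h'⟩)
          · exact absurd (L.trans' (L.symm' k) h') hLn
          · exact Or.inl (L.trans' h (L.symm' k'))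
          · exact Or.inr (Or.inr ⟨h, L.trans' (L.symm' k) h'⟩)
          · exact Or.inl (L.trans' h (L.symm' k'))
          · exact absurd (L.trans' (L.symm' h') k) hLn }
  have hLM : L ≤ M := fun u v huv => Or.inl huv
  have hMU : M ≤ Up C a b := by
    have hLU : L ≤ Up C a b := Lo_le_Up hC a b
    have hab := Up_rel C a b
    rintro u v (h | ⟨h, h'⟩ | ⟨h, h'⟩)
    · exact hLU h
    · exact (Up C a b).trans' (hLU h) ((Up C a b).trans' hab ((Up C a b).symm' (hLU h')))
    · exact (Up C a b).trans' (hLU h)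
        ((Up C a b).trans' ((Up C a b).symm' hab) ((Up C a b).symm' (hLU h')))
  have hM : M ∈ C := by
    apply mem_of_cmp hC
    intro E hE
    by_cases hh : E a b
    · exact Or.inr (hMU.trans (Up_le C hE hh))
    · exact Or.inl ((le_Lo hC hE hh).trans hLM)
  have hMab : M a b := Or.inr (Or.inl ⟨L.refl' a, L.refl' b⟩)
  have hUM : Up C a b ≤ M := Up_le C hM hMab
  rcases hUM h with h1 | h1 | h1
  · exact absurd h1 hn
  · exact Or.inl h1
  · exact Or.inr h1

/-- Chosen representatives of a jump. -/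
noncomputable def rep (C : Set (Setoid α)) (U : Setoid α) (x y : α) : α × α := by
  classical
  exact if h : ∃ p : α × α, p.1 ≠ p.2 ∧ Up C p.1 p.2 = U then h.choose else (x, y)

theorem rep_spec (C : Set (Setoid α)) {x y : α} (hne : x ≠ y) (x' y' : α) :
    (rep C (Up C x y) x' y').1 ≠ (rep C (Up C x y) x' y').2 ∧
      Up C (rep C (Up C x y) x' y').1 (rep C (Up C x y) x' y').2 = Up C x y := by
  classical
  have h : ∃ p : α × α, p.1 ≠ p.2 ∧ Up C p.1 p.2 = Up C x y := ⟨(x, y), hne, rfl⟩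
  unfold rep
  rw [dif_pos h]
  exact h.choose_spec

theorem rep_indep (C : Set (Setoid α)) {x y : α} (hne : x ≠ y) (x' y' x'' y'' : α) :
    rep C (Up C x y) x' y' = rep C (Up C x y) x'' y'' := by
  classical
  have h : ∃ p : α × α, p.1 ≠ p.2 ∧ Up C p.1 p.2 = Up C x y := ⟨(x, y), hne, rfl⟩
  unfold rep
  rw [dif_pos h, dif_pos h]

/-- The linear order of the points induced by the chain. -/
def lt' (hC : IsMaxChain (· ≤ ·) C) (x y : α) : Prop :=
  x ≠ y ∧ (Lo hC x y) x (rep C (Up C x y) x y).1 ∧ (Lo hC x y) y (rep C (Up C x y) x y).2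

theorem Up_comm (x y : α) : Up C x y = Up C y x := by
  unfold Up
  congr 1
  ext E
  constructor
  · rintro ⟨h, h'⟩; exact ⟨h, E.symm' h'⟩
  · rintro ⟨h, h'⟩; exact ⟨h, E.symm' h'⟩

/-- Characterisation of `lt'` through any pair with the same jump. -/
theorem lt'_iff (hC : IsMaxChain (· ≤ ·) C) {x y c d : α} (hcd : c ≠ d)
    (h : Up C x y = Up C c d) :
    lt' hC x y ↔ x ≠ y ∧ (Lo hC c d) x (rep C (Up C c d) c d).1 ∧
      (Lo hC c d) y (rep C (Up C c d) c d).2 := by
  unfold lt'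
  rw [Lo_eq_of_Up_eq hC h, h, rep_indep C hcd x y c d]

theorem lt'_total (hC : IsMaxChain (· ≤ ·) C) {x y : α} (hne : x ≠ y) :
    lt' hC x y ∨ lt' hC y x := by
  obtain ⟨h1, h2⟩ := rep_spec C hne x y
  set p := rep C (Up C x y) x y with hp
  have hL : Lo hC p.1 p.2 = Lo hC x y := Lo_eq_of_Up_eq hC h2
  have h3 : (Up C p.1 p.2) x y := by rw [h2]; exact Up_rel C x y
  have h4 : ¬ (Lo hC p.1 p.2) x y := by rw [hL]; exact Lo_not hC hne
  rcases two_block hC h1 h3 h4 with h | h
  · left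
    rw [hL] at h
    exact ⟨hne, h.1, h.2⟩
  · right
    rw [hL] at h
    rw [lt'_iff hC hne (Up_comm y x)]
    exact ⟨hne.symm, h.2, h.1⟩

/-- the pair of representatives is not `Lo`-related -/
theorem rep_not (hC : IsMaxChain (· ≤ ·) C) {x y : α} (hne : x ≠ y) :
    ¬ (Lo hC x y) (rep C (Up C x y) x y).1 (rep C (Up C x y) x y).2 := by
  obtain ⟨h1, h2⟩ := rep_spec C hne x y
  rw [← Lo_eq_of_Up_eq hC h2]
  exact Lo_not hC h1

theorem lt'_trans (hC : IsMaxChain (· ≤ ·) C) {x y z : α} (hxy : lt' hC x y)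
    (hyz : lt' hC y z) : lt' hC x z := by
  have hne1 := hxy.1
  have hne2 := hyz.1
  by_cases hV : (Lo hC y z) x y
  · -- the jump of `x,y` is strictly below the jump of `y,z`
    have hxz : ¬ (Lo hC y z) x z := fun h =>
      Lo_not hC hne2 ((Lo hC y z).trans' ((Lo hC y z).symm' hV) h)
    have hne : x ≠ z := by
      rintro rfl
      exact hxz ((Lo hC y x).refl' x)
    have hU : Up C x z = Up C y z := by
      apply le_antisymm
      · apply Up_le C (Up_mem hC y z)
        exact (Up C y z).trans' (Lo_le_Up hC y z hV) (Up_rel C y z)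
      · apply Up_le C (Up_mem hC x z)
        by_contra hcon
        exact hxz (le_Lo hC (Up_mem hC x z) hcon (Up_rel C x z))
    rw [lt'_iff hC hne2 hU]
    exact ⟨hne, (Lo hC y z).trans' hV hyz.2.1, hyz.2.2⟩
  · by_cases hW : (Lo hC x y) y z
    · have hxz : ¬ (Lo hC x y) x z := fun h =>
        Lo_not hC hne1 ((Lo hC x y).trans' h ((Lo hC x y).symm' hW))
      have hne : x ≠ z := by
        rintro rfl
        exact hxz ((Lo hC x y).refl' x)
      have hU : Up C x z = Up C x y := by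
        apply le_antisymm
        · apply Up_le C (Up_mem hC x y)
          exact (Up C x y).trans' (Up_rel C x y) (Lo_le_Up hC x y hW)
        · apply Up_le C (Up_mem hC x z)
          by_contra hcon
          exact hxz (le_Lo hC (Up_mem hC x z) hcon (Up_rel C x z))
      rw [lt'_iff hC hne1 hU]
      exact ⟨hne, hxy.2.1, (Lo hC x y).trans' ((Lo hC x y).symm' hW) hxy.2.2⟩
    · -- equal jumps: impossible
      exfalso
      have h1 : Up C x y ≤ Up C y z := by
        by_contra hcon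
        have : ¬ (Up C y z) x y := fun h => hcon (Up_le C (Up_mem hC y z) h)
        exact hW (le_Lo hC (Up_mem hC y z) this (Up_rel C y z))
      have h2 : Up C y z ≤ Up C x y := by
        by_contra hcon
        have : ¬ (Up C x y) y z := fun h => hcon (Up_le C (Up_mem hC x y) h)
        exact hV (le_Lo hC (Up_mem hC x y) this (Up_rel C x y))
      have hU : Up C y z = Up C x y := le_antisymm h2 h1
      rw [lt'_iff hC hne1 hU] at hyz
      exact rep_not hC hne1 ((Lo hC x y).trans' ((Lo hC x y).symm' hyz.2.1) hxy.2.2)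

theorem lt'_irrefl (hC : IsMaxChain (· ≤ ·) C) (x : α) : ¬ lt' hC x x := fun h => h.1 rfl

/-- The sets of the nested family, indexed by the members of the chain. -/
def cut (hC : IsMaxChain (· ≤ ·) C) (U : C) : Set α :=
  {z | ∃ c d, c ≠ d ∧ Up C c d = U.1 ∧
    ∀ w, (Lo hC c d) w (rep C (Up C c d) c d).2 → lt' hC z w}

theorem cut_lower (hC : IsMaxChain (· ≤ ·) C) (U : C) {z z' : α} (h : z ∈ cut hC U)
    (h' : lt' hC z' z) : z' ∈ cut hC U := by
  obtain ⟨c, d, hcd, hU, h1⟩ := h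
  exact ⟨c, d, hcd, hU, fun w hw => lt'_trans hC h' (h1 w hw)⟩

theorem cut_total (hC : IsMaxChain (· ≤ ·) C) (U V : C) :
    cut hC U ⊆ cut hC V ∨ cut hC V ⊆ cut hC U := by
  by_contra hcon
  push Not at hcon
  obtain ⟨h1, h2⟩ := hcon
  rw [Set.not_subset] at h1 h2
  obtain ⟨a, ha, ha'⟩ := h1
  obtain ⟨b, hb, hb'⟩ := h2
  have hne : a ≠ b := by rintro rfl; exact ha' hb
  rcases lt'_total hC hne with h | h
  · exact ha' (cut_lower hC V hb h)
  · exact hb' (cut_lower hC U ha h)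

theorem cut_sep_aux (hC : IsMaxChain (· ≤ ·) C) {x y : α} (h : lt' hC x y) :
    x ∈ cut hC ⟨Up C x y, Up_mem hC x y⟩ ∧ y ∉ cut hC ⟨Up C x y, Up_mem hC x y⟩ := by
  constructor
  · refine ⟨x, y, h.1, rfl, ?_⟩
    intro w hw
    have hyw : (Lo hC x y) y w := (Lo hC x y).trans' h.2.2 ((Lo hC x y).symm' hw)
    have hxw : ¬ (Lo hC x y) x w := fun hh =>
      Lo_not hC h.1 ((Lo hC x y).trans' hh ((Lo hC x y).symm' hyw))
    have hne : x ≠ w := by
      rintro rfl
      exact hxw ((Lo hC x y).refl' x)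
    have hU : Up C x w = Up C x y := by
      apply le_antisymm
      · apply Up_le C (Up_mem hC x y)
        exact (Up C x y).trans' (Up_rel C x y) (Lo_le_Up hC x y hyw)
      · apply Up_le C (Up_mem hC x w)
        by_contra hcon
        exact hxw (le_Lo hC (Up_mem hC x w) hcon (Up_rel C x w))
    rw [lt'_iff hC h.1 hU]
    exact ⟨hne, h.2.1, hw⟩
  · rintro ⟨c, d, hcd, hU, h1⟩
    have hU' : Up C c d = Up C x y := hU
    have hL := Lo_eq_of_Up_eq hC hU'
    apply lt'_irrefl hC y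
    apply h1
    rw [hL, hU', rep_indep C h.1 c d x y]
    exact h.2.2

theorem cut_sep (hC : IsMaxChain (· ≤ ·) C) (x y : α)
    (h : ∀ U : C, x ∈ cut hC U ↔ y ∈ cut hC U) : x = y := by
  by_contra hne
  rcases lt'_total hC hne with h1 | h1
  · obtain ⟨h2, h3⟩ := cut_sep_aux hC h1
    exact h3 ((h _).1 h2)
  · obtain ⟨h2, h3⟩ := cut_sep_aux hC h1
    exact h3 ((h _).2 h2)

end Conv

/-- Every maximal chain yields a nested separating family indexed by the chain. -/
theorem exists_fam_of_chain {α : Type u} {C : Set (Setoid α)} (hC : IsMaxChain (· ≤ ·) C) :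
    ∃ A : C → Set α, (∀ i j, A i ⊆ A j ∨ A j ⊆ A i) ∧
      ∀ x y, (∀ i, x ∈ A i ↔ y ∈ A i) → x = y :=
  ⟨cut hC, cut_total hC, cut_sep hC⟩

end Pool.Agent.Q306.PL
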