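import Pool.Agent.Q306.PL.Conv

/-!
# The exact size of the smallest maximal chains of a partition lattice
-/

namespace Pool.Agent.Q306.PL

open Cardinal Set Order

universe u

/-- the set of eventually false sequences -/
def Ev (J : Type u) [LinearOrder J] : Set (J → Bool) := {t | ∃ d, ∀ c, d < c → t c = false}

theorem Ev_card (κ : Cardinal.{u}) (hκ : κ.IsRegular) (ν : Cardinal.{u}) (hν : ν < κ)
    (hinf : ℵ₀ ≤ ν) (h : ∀ μ < ν, (2 : Cardinal.{u}) ^ μ < κ) :
    #(Ev ν.ord.ToType) < κ := by
  have h1 : Ev ν.ord.ToType = ⋃ d : ν.ord.ToType, {t | ∀ c, d < c → t c = false} := by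
    ext t
    simp [Ev]
  rw [h1, card_iUnion_lt_iff_forall_of_isRegular hκ (by simpa using hν)]
  intro d
  have hd : #(Iic d) < ν := by
    have h2 : #(Iio d) < ν := by
      have h0 := mk_Iio_lt d (by simp)
      simpa using h0
    have h3 : (Iic d) = insert d (Iio d) := by
      ext c
      simp [le_iff_eq_or_lt]
    rw [h3]
    refine (mk_insert_le).trans_lt ?_
    exact add_lt_of_lt hinf h2 (one_lt_aleph0.trans_le hinf)
  refine lt_of_le_of_lt ?_ (h _ hd)
  have : #(Iic d → Bool) = 2 ^ #(Iic d) := by simp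
  rw [← this]
  refine mk_le_of_injective (f := fun t : {t : ν.ord.ToType → Bool | ∀ c, d < c → t c = false} =>
    fun c : Iic d => t.1 c.1) ?_
  intro t t' htt
  apply Subtype.ext
  funext c
  by_cases hc : c ≤ d
  · exact congrFun htt ⟨c, hc⟩
  · rw [t.2 c (not_le.1 hc), t'.2 c (not_le.1 hc)]

/-- nested separating family from an injection into `2^J` -/
theorem fam_of_inj {α J : Type u} [LinearOrder J] [WellFoundedLT J] (g : α → (J → Bool))
    (hg : Function.Injective g) :
    ∃ A : Ev J → Set α, (∀ i j, A i ⊆ A j ∨ A j ⊆ A i) ∧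
      ∀ x y, (∀ i, x ∈ A i ↔ y ∈ A i) → x = y := by
  refine ⟨fun t => {x | toLex (g x) < toLex t.1}, ?_, ?_⟩
  · intro i j
    rcases le_total (toLex i.1) (toLex j.1) with h | h
    · exact Or.inl fun x hx => lt_of_lt_of_le hx h
    · exact Or.inr fun x hx => lt_of_lt_of_le hx h
  · have key : ∀ x y, toLex (g x) < toLex (g y) →
        ¬ (∀ i : Ev J, x ∈ {x | toLex (g x) < toLex i.1} ↔ y ∈ {x | toLex (g x) < toLex i.1}) := by
      intro x y hxy hcon
      obtain ⟨d, hd, hd'⟩ := hxy
      have hd1 : g x d = false ∧ g y d = true := by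
        change g x d < g y d at hd'
        revert hd'
        cases g x d <;> cases g y d <;> simp
      let t : J → Bool := fun c => if c ≤ d then g y c else false
      have ht : t ∈ Ev J := ⟨d, fun c hc => by simp [t, not_le.2 hc]⟩
      have hx : toLex (g x) < toLex t := by
        refine ⟨d, ?_, ?_⟩
        · intro c hc
          have : g x c = g y c := hd c hc
          change g x c = t c
          simp [t, le_of_lt hc, this]
        · change g x d < t d
          simp [t, hd1]
      have hy : toLex (g y) < toLex t := (hcon ⟨t, ht⟩).1 hx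
      obtain ⟨e, he, he'⟩ := hy
      change g y e < t e at he'
      simp only [t] at he'
      split_ifs at he' with hh
      · exact lt_irrefl _ he'
      · revert he'
        cases g y e <;> simp
    intro x y h
    by_contra hne
    have hne' : toLex (g x) ≠ toLex (g y) := fun hh => hne (hg (toLex.injective hh))
    rcases lt_or_gt_of_ne hne' with h1 | h1
    · exact key x y h1 h
    · exact key y x h1 fun i => (h i).symm

/-- Part one: the least size of a maximal chain in terms of cuts of linear orders. -/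
theorem part1 (α : Type u) [Infinite α] (lam : Cardinal.{u}) :
    (∃ C : Set (Setoid α), IsMaxChain (· ≤ ·) C ∧ #C ≤ lam) ↔
      ∃ (L : Type u) (_ : LinearOrder L), #L ≤ lam ∧ #α ≤ #(LowerSet L) := by
  constructor
  · rintro ⟨C, hC, hcard⟩
    obtain ⟨A, hA, hs⟩ := exists_fam_of_chain hC
    classical
    -- the linear order of the sets `A i`
    let S : Set (Set α) := Set.range A
    have htot : ∀ a b : S, a ≤ b ∨ b ≤ a := by
      rintro ⟨_, i, rfl⟩ ⟨_, j, rfl⟩
      exact hA i j
    let lo : LinearOrder S :=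
      { (inferInstance : PartialOrder S) with
        le_total := htot
        toDecidableLE := Classical.decRel _ }
    refine ⟨S, lo, mk_range_le.trans hcard, ?_⟩
    refine mk_le_of_injective (f := fun x : α =>
      (⟨{s : S | x ∉ s.1}, fun a b hba ha hb => ha (hba hb)⟩ : LowerSet S)) ?_
    intro x y hxy
    apply hs
    intro i
    have h1 : ({s : S | x ∉ s.1} : Set S) = {s : S | y ∉ s.1} := congrArg LowerSet.carrier hxy
    have h2 : (⟨A i, i, rfl⟩ : S) ∈ ({s : S | x ∉ s.1} : Set S) ↔
        (⟨A i, i, rfl⟩ : S) ∈ ({s : S | y ∉ s.1} : Set S) := by rw [h1]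
    exact not_iff_not.1 h2
  · rintro ⟨L, lo, hL, hα⟩
    obtain ⟨g⟩ := hα
    have hinf : Infinite L := by
      by_contra hfin
      rw [not_infinite_iff_finite] at hfin
      have : Finite (LowerSet L) := Finite.of_injective (fun s : LowerSet L => (s : Set L))
        SetLike.coe_injective
      exact not_finite_iff_infinite.2 (Infinite.of_injective g g.injective) this
    obtain ⟨C, hC, hcard⟩ := exists_chain_of_fam (fun l : L => {x : α | l ∈ g x}) (by
      intro i j
      rcases le_total i j with h | h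
      · exact Or.inr fun x hx => (g x).lower h hx
      · exact Or.inl fun x hx => (g x).lower h hx) (by
      intro x y h
      apply g.injective
      ext l
      exact h l)
    refine ⟨C, hC, hcard.trans ?_⟩
    rw [add_one_eq (aleph0_le_mk L)]
    exact hL

/-- Part two: regular cardinals. -/
theorem part2 (κ : Cardinal.{u}) (hκ : κ.IsRegular) (α : Type u) (hα : #α = κ) :
    (∃ C : Set (Setoid α), IsMaxChain (· ≤ ·) C ∧ #C < κ.ord.cof) ↔ ∃ μ < κ, κ ≤ 2 ^ μ := by
  rw [hκ.cof_ord]
  have hinf : Infinite α := by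
    rw [Cardinal.infinite_iff, hα]
    exact hκ.aleph0_le
  constructor
  · rintro ⟨C, hC, hcard⟩
    obtain ⟨L, lo, hL, h⟩ := (part1 α #C).1 ⟨C, hC, le_rfl⟩
    refine ⟨#C, hcard, ?_⟩
    rw [← hα]
    refine h.trans ?_
    refine (mk_le_of_injective (f := fun s : LowerSet L => (s : Set L)) SetLike.coe_injective).trans ?_
    rw [mk_set]
    exact power_le_power_left two_ne_zero hL
  · rintro ⟨μ, hμ, hle⟩
    -- the least exponent
    obtain ⟨ν, hν, hmin⟩ := WellFounded.has_min (wellFounded_lt (α := Cardinal.{u}))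
      {ν | κ ≤ 2 ^ ν} ⟨μ, hle⟩
    have hνμ : ν ≤ μ := not_lt.1 (hmin μ hle)
    have hνκ : ν < κ := hνμ.trans_lt hμ
    have hlt : ∀ ρ < ν, (2 : Cardinal.{u}) ^ ρ < κ := by
      intro ρ hρ
      by_contra hcon
      exact hmin ρ (not_lt.1 hcon) hρ
    have hνinf : ℵ₀ ≤ ν := by
      by_contra hcon
      have h1 : (2 : Cardinal.{u}) ^ ν < ℵ₀ := power_lt_aleph0 (natCast_lt_aleph0 (n := 2)) (not_le.1 hcon)
      exact absurd (hκ.aleph0_le.trans hν) (not_le.2 h1)
    have hEv := Ev_card κ hκ ν hνκ hνinf hlt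
    have hinj : #α ≤ #(ν.ord.ToType → Bool) := by
      rw [hα]
      simpa using hν
    obtain ⟨g⟩ := hinj
    obtain ⟨A, hA, hs⟩ := fam_of_inj g g.injective
    obtain ⟨C, hC, hcard⟩ := exists_chain_of_fam A hA hs
    refine ⟨C, hC, hcard.trans_lt ?_⟩
    exact add_lt_of_lt hκ.aleph0_le hEv (one_lt_aleph0.trans_le hκ.aleph0_le)

end Pool.Agent.Q306.PL
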